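import Mathlib
import Pool.Agent.Lib.MP_a12917_nt_GT.Stmt
import Pool.Agent.Lib.MP_a12917_nt_GT.Main

/-!
MP_a12917_nt: the Gaussian law for the remainder of the truncated divisor function in short
intervals, `x` uniform in a long interval.
-/

namespace Pool.Agent.Results.MP_a12917_nt.LongAverageGaussianLaw

open Finset Pool.Agent.MP_a12917_nt_GT

/-- Let `d(n; z)` be the number of divisors `a ≤ z` of `n` and
`Δ_z(x, H) = ∑_{x < n ≤ x+H} d(n; z) - H ∑_{a ≤ z} 1/a` (`truncRem z H x`). If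
`z^ε ≤ H ≤ z^(1-ε)`, `z → ∞` and `log Y / log z → ∞`, then `Δ_z(x, H)`, `x` uniform in `[Y, 2Y)`,
divided by its root mean square, converges in distribution to the standard normal law,
uniformly in `H`. -/
theorem result (ε : ℝ) (hε : 0 < ε) (a b : ℝ) (hab : a < b) (η : ℝ) (hη : 0 < η) :
    ∃ z₀ A : ℕ, ∀ z : ℕ, z₀ ≤ z →
      ∀ H : ℕ, (z : ℝ) ^ ε ≤ H → (H : ℝ) ≤ (z : ℝ) ^ (1 - ε) → ∀ Y : ℕ, z ^ A ≤ Y →
        |(((Ico Y (2 * Y)).filter (fun x : ℕ =>
              a ≤ truncRem z H x / Real.sqrt (msq z H Y) ∧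
              truncRem z H x / Real.sqrt (msq z H Y) ≤ b)).card : ℝ) / Y -
            (Real.sqrt (2 * Real.pi))⁻¹ * ∫ t in a..b, Real.exp (-t ^ 2 / 2)| ≤ η :=
  main_law ε hε a b hab η hη

end Pool.Agent.Results.MP_a12917_nt.LongAverageGaussianLaw
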