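import Mathlib
import Pool.Agent.Lib.MP_a12917_nt_SC.SMain

/-!
MP_a12917_nt: both-sided lower bounds and sign changes for the remainder term of the divisor
problem in short intervals.
-/

namespace Pool.Agent.Results.MP_a12917_nt.SignChanges

open MeasureTheory Set

/-- Let `D` be the remainder term of the Dirichlet divisor problem. For every `ε > 0` there are
`c, K, X₀ > 0` such that for `X ≥ X₀`, `X^ε ≤ H ≤ X^(1/4-ε)` and `σ` the root mean square of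
`D(y+H) - D(y)` over `[X, 2X]`: `σ > 0`, and the set of the `x ∈ [X, 2X]` for which both
`D(y+H) - D(y) ≥ c σ` and `D(y+H) - D(y) ≤ -c σ` hold on subsets of `[x, x+KH]` of measure at least
`c H` has measure at least `c X`. -/
theorem result (ε : ℝ) (hε : 0 < ε) : ∃ c K X₀ : ℝ, 0 < c ∧ 0 < K ∧ 0 < X₀ ∧
    ∀ D : ℝ → ℝ,
      (∀ x : ℝ, D x = (∑ n ∈ Finset.Icc 1 ⌊x⌋₊, ((Nat.divisors n).card : ℝ)) -
        x * (Real.log x + 2 * Real.eulerMascheroniConstant - 1)) →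
    ∀ X H σ : ℝ, X₀ ≤ X → X ^ ε ≤ H → H ≤ X ^ (1 / 4 - ε) →
      σ = √((1 / X) * ∫ y in X..(2 * X), (D (y + H) - D y) ^ 2) →
      0 < σ ∧
      c * X ≤ (volume {x | x ∈ Icc X (2 * X) ∧
        c * H ≤ (volume {y | y ∈ Icc x (x + K * H) ∧ c * σ ≤ D (y + H) - D y}).toReal ∧
        c * H ≤
          (volume {y | y ∈ Icc x (x + K * H) ∧ D (y + H) - D y ≤ -(c * σ)}).toReal}).toReal := by
  obtain ⟨c, K, X₀, hc, hK, hX₀, h⟩ := Pool.Agent.MP_a12917_nt_SC.main ε hε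
  refine ⟨c, K, X₀, hc, hK, hX₀, fun D hD X H σ hX h1 h2 hσ => ?_⟩
  obtain ⟨h3, h4⟩ := h D hD X H hX h1 h2
  subst hσ
  exact ⟨Real.sqrt_pos.2 (mul_pos (one_div_pos.2 (hX₀.trans_le hX)) h3), h4⟩

end Pool.Agent.Results.MP_a12917_nt.SignChanges
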