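import Mathlib
import Pool.Agent.Lib.MP_a12917_nt_GT.Stmt
import Pool.Agent.Lib.MP_a12917_nt_GT.Main2

/-!
MP_a12917_nt: the `m`-th moment of the remainder of the truncated divisor function in short
intervals is Gaussian for a truncation at `z ≤ Y^(1/(2⌈m/2⌉) - δ)`.
-/

namespace Pool.Agent.Results.MP_a12917_nt.TruncatedMoments

open Finset Pool.Agent.MP_a12917_nt_GT

/-- Let `d(n; z)` be the number of divisors `a ≤ z` of `n` and
`Δ_z(x, H) = ∑_{x < n ≤ x+H} d(n; z) - H ∑_{a ≤ z} 1/a` (`truncRem z H x`). If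
`z^ε ≤ H ≤ z^(1-ε)`, `z → ∞` and `Y ≥ z^(2⌈m/2⌉ + ε')`, the `m`-th moment of
`Δ_z(x, H)`, `x` uniform in `[Y, 2Y)`, divided by its root mean square, tends to the `m`-th
moment of the standard normal law, uniformly in `H` and `Y`. -/
theorem result (m : ℕ) (hm : 1 ≤ m) (ε ε' η : ℝ) (hε : 0 < ε) (hε' : 0 < ε') (hη : 0 < η) :
    ∃ z₀ : ℕ, ∀ z : ℕ, z₀ ≤ z →
      ∀ H : ℕ, (z : ℝ) ^ ε ≤ H → (H : ℝ) ≤ (z : ℝ) ^ (1 - ε) →
      ∀ Y : ℕ, (z : ℝ) ^ (2 * (((m + 1) / 2 : ℕ) : ℝ) + ε') ≤ Y →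
        0 < msq z H Y ∧
        |(∑ x ∈ Ico Y (2 * Y), (truncRem z H x / Real.sqrt (msq z H Y)) ^ m) / Y -
          (if Even m then (m.factorial : ℝ) / (2 ^ (m / 2) * (m / 2).factorial) else 0)| ≤ η :=
  main_moments m hm ε ε' η hε hε' hη

end Pool.Agent.Results.MP_a12917_nt.TruncatedMoments
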